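import Pool.Agent.W815.MO.CL2

/-!
# MO-CL: a cell with few primes has a small Gaussian prime sum
-/

set_option autoImplicit false

namespace Pool.Agent.W815.CL

open Finset Filter Topology Pool.Agent.W76.MO
open scoped Classical

open scoped ArithmeticFunction.vonMangoldt

/-- all non-near parts of the Gaussian prime sum -/
lemma DG_le (i : ℕ) (η y : ℝ) (hη : 0 < η) (hη2 : η ^ 2 * 2 ^ i ≤ 1) (hy1 : (2 : ℝ) ^ i ≤ y)
    (hy2 : y ≤ 2 * 2 ^ i) (hi : 16 * (i : ℝ) + 24 ≤ 2 ^ i) :
    DG η y ≤ ∑ n ∈ Icc 1 (4 * 2 ^ i), Λ n * wt η y n + 3 := by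
  have hz := hasSum_zeta_two
  have hle : ∀ n : ℕ, Λ n * wt η y n ≤
      (if n ∈ Icc 1 (4 * 2 ^ i) then Λ n * wt η y n else 0) + 1 / (n : ℝ) ^ 2 := by
    intro n
    by_cases hn : n ∈ Icc 1 (4 * 2 ^ i)
    · rw [if_pos hn]
      have : (0 : ℝ) ≤ 1 / (n : ℝ) ^ 2 := by positivity
      linarith
    · rw [if_neg hn, zero_add]
      rw [mem_Icc, not_and_or] at hn
      rcases Nat.eq_zero_or_pos n with h0 | hpos
      · subst h0; simp
      · apply tail i η y hη hη2 hy1 hy2 hi n
        omega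
  have hs1 : Summable (fun n : ℕ =>
      (if n ∈ Icc 1 (4 * 2 ^ i) then Λ n * wt η y n else 0)) := by
    apply summable_of_ne_finset_zero (s := Icc 1 (4 * 2 ^ i))
    intro n hn
    rw [if_neg hn]
  have hs2 : Summable (fun n : ℕ =>
      (if n ∈ Icc 1 (4 * 2 ^ i) then Λ n * wt η y n else 0) + 1 / (n : ℝ) ^ 2) :=
    hs1.add hz.summable
  have hs3 : Summable (fun n : ℕ => Λ n * wt η y n) :=
    Summable.of_nonneg_of_le
      (fun n => mul_nonneg ArithmeticFunction.vonMangoldt_nonneg (wt_nonneg _ _ _)) hle hs2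
  have h1 : DG η y = ∑' n : ℕ, Λ n * wt η y n := rfl
  rw [h1]
  refine (hs3.tsum_le_tsum hle hs2).trans ?_
  rw [hs1.tsum_add hz.summable, hz.tsum_eq]
  have h2 : ∑' n : ℕ, (if n ∈ Icc 1 (4 * 2 ^ i) then Λ n * wt η y n else 0) =
      ∑ n ∈ Icc 1 (4 * 2 ^ i), Λ n * wt η y n := by
    rw [tsum_eq_sum (s := Icc 1 (4 * 2 ^ i))]
    · exact sum_congr rfl (fun n hn => if_pos hn)
    · intro n hn; rw [if_neg hn]
  rw [h2]
  have h3 : Real.pi ^ 2 / 6 ≤ 3 := by
    have := Real.pi_lt_four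
    have := Real.pi_pos
    nlinarith
  linarith

/-- the sum up to `4X` -/
lemma near_sum (C₁ L ε c : ℝ) (hC₁ : 0 < C₁) (hL : 8 ≤ L) (i k h : ℕ)
    (hh0 : 0 < h) (hkh : (k + 1) * h ≤ 2 ^ i)
    (hmass : ∀ a : ℕ, a ≤ 4 * 2 ^ i → ∑ n ∈ Ioc a (a + h), Λ n ≤ C₁ * h)
    (hpp : ∀ a : ℕ, a ≤ 4 * 2 ^ i →
      ∑ n ∈ (Ioc a (a + h)).filter (fun n => ¬ n.Prime), Λ n ≤ ε * h)
    (hi : 1 ≤ i)
    (hcell : (((Ioc (2 ^ i + k * h) (2 ^ i + (k + 1) * h)).filter Nat.Prime).card : ℝ) ≤ c * h / i) :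
    ∑ n ∈ Icc 1 (4 * 2 ^ i), Λ n *
      wt ((h : ℝ) / (L * 2 ^ i)) (2 ^ i + (k + 1 / 2) * h) n ≤
        2 * c * h + ε * h + 4 * Real.exp (-L ^ 2 / 128) * (C₁ * h) := by
  set η : ℝ := (h : ℝ) / (L * 2 ^ i) with hη
  set y : ℝ := 2 ^ i + (k + 1 / 2) * h with hy
  set x : ℕ := 2 ^ i + k * h with hx
  have hxh : 2 ^ i + (k + 1) * h = x + h := by rw [hx]; ring
  rw [hxh] at hcell
  have hX1 : 1 ≤ 2 ^ i := Nat.one_le_two_pow
  have hkh' : k * h + h ≤ 2 ^ i := by
    have : (k + 1) * h = k * h + h := by ring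
    omega
  have hyx : y = x + (h : ℝ) / 2 := by rw [hy, hx]; push_cast; ring
  have hXr : (0 : ℝ) < 2 ^ i := by positivity
  have hhr : (0 : ℝ) < h := by exact_mod_cast hh0
  have hx4 : (x : ℝ) + h ≤ 2 * 2 ^ i := by
    have : x + h ≤ 2 * 2 ^ i := by omega
    exact_mod_cast this
  have hxX : (2 : ℝ) ^ i ≤ x := by
    have : 2 ^ i ≤ x := by omega
    exact_mod_cast this
  have hy0 : 0 < y := by rw [hyx]; positivity
  have hy4 : y ≤ 4 * 2 ^ i := by rw [hyx]; linarith
  set q : ℝ := Real.exp (-L ^ 2 / 64) with hq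
  have hq0 : 0 ≤ q := (Real.exp_pos _).le
  have hq2 : q ≤ 1 / 2 := by
    have h1 : q ≤ Real.exp (-1) := by
      apply Real.exp_le_exp.mpr
      nlinarith
    have h2 : Real.exp (-1) ≤ 1 / 2 := by
      rw [Real.exp_neg, inv_eq_one_div]
      apply one_div_le_one_div_of_le (by norm_num)
      have := Real.add_one_le_exp (1 : ℝ)
      linarith
    linarith
  have hqm : ∀ m : ℕ, Real.exp (-L ^ 2 / 64 * m) = q ^ m := by
    intro m
    rw [hq, ← Real.exp_nat_mul]; congr 1; ring
  set E : ℝ := Real.exp (-L ^ 2 / 128) with hE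
  have hE0 : 0 ≤ E := (Real.exp_pos _).le
  -- the three parts
  set S := Icc 1 (4 * 2 ^ i) with hS
  have hcover : ∑ n ∈ S, Λ n * wt η y n ≤
      ∑ n ∈ S.filter (fun n => n ≤ x), Λ n * wt η y n +
      (∑ n ∈ Ioc x (x + h), Λ n * wt η y n +
      ∑ n ∈ S.filter (fun n => x + h < n), Λ n * wt η y n) := by
    rw [← sum_filter_add_sum_filter_not S (fun n => n ≤ x)]
    apply add_le_add le_rfl
    rw [← sum_filter_add_sum_filter_not (S.filter (fun n => ¬ n ≤ x)) (fun n => n ≤ x + h)]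
    apply add_le_add
    · apply sum_le_sum_of_subset_of_nonneg
      · intro n hn
        simp only [mem_filter, mem_Ioc] at hn ⊢
        omega
      · intro n _ _
        exact mul_nonneg ArithmeticFunction.vonMangoldt_nonneg (wt_nonneg _ _ _)
    · apply sum_le_sum_of_subset_of_nonneg
      · intro n hn
        simp only [mem_filter] at hn ⊢
        exact ⟨hn.1.1, by omega⟩
      · intro n _ _
        exact mul_nonneg ArithmeticFunction.vonMangoldt_nonneg (wt_nonneg _ _ _)
  -- left part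
  have hleft : ∑ n ∈ S.filter (fun n => n ≤ x), Λ n * wt η y n ≤ 2 * E * (C₁ * h) := by
    apply blocks _ (fun n => (x - n) / h) (fun n => Λ n) _ E q (C₁ * h)
      (fun n => ArithmeticFunction.vonMangoldt_nonneg) hE0 hq0 hq2 (by positivity)
    · intro n hn
      simp only [hS, mem_filter, mem_Icc] at hn
      rw [← hqm]
      have hn0 : (0 : ℝ) < n := by exact_mod_cast hn.1.1
      apply wt_block (2 ^ i) h L y n _ hXr hhr (by linarith) hn0 hy0
        (by exact_mod_cast hn.1.2) hy4 (by positivity)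
      have h1 : ((x - n) / h) * h ≤ x - n := Nat.div_mul_le_self _ _
      have h2 : ((((x - n) / h : ℕ)) : ℝ) * h ≤ x - n := by
        have h3 : ((((x - n) / h : ℕ)) : ℝ) * h ≤ ((x - n : ℕ) : ℝ) := by exact_mod_cast h1
        rwa [Nat.cast_sub hn.2] at h3
      rw [abs_sub_comm]
      refine le_trans ?_ (le_abs_self _)
      rw [hyx]
      linarith
    · intro m
      by_cases hm : m * h ≤ x
      · refine le_trans ?_ (hmass (x - (m + 1) * h) (by omega))
        apply sum_le_sum_of_subset_of_nonneg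
        · intro n hn
          simp only [hS, mem_filter, mem_Icc, mem_Ioc] at hn ⊢
          obtain ⟨⟨⟨h1, h2⟩, h3⟩, h4⟩ := hn
          rw [Nat.div_eq_iff hh0] at h4
          have h5 : (m + 1) * h = m * h + h := by ring
          have h6 : m * h = h * m := mul_comm _ _
          omega
        · intro n _ _
          exact ArithmeticFunction.vonMangoldt_nonneg
      · have : (S.filter (fun n => n ≤ x)).filter (fun n => (x - n) / h = m) = ∅ := by
          apply filter_eq_empty_iff.mpr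
          intro n hn hc
          rw [Nat.div_eq_iff hh0] at hc
          have h6 : m * h = h * m := mul_comm _ _
          omega
        rw [this, sum_empty]
        positivity
  -- right part
  have hright : ∑ n ∈ S.filter (fun n => x + h < n), Λ n * wt η y n ≤ 2 * E * (C₁ * h) := by
    apply blocks _ (fun n => (n - (x + h) - 1) / h) (fun n => Λ n) _ E q (C₁ * h)
      (fun n => ArithmeticFunction.vonMangoldt_nonneg) hE0 hq0 hq2 (by positivity)
    · intro n hn
      simp only [hS, mem_filter, mem_Icc] at hn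
      rw [← hqm]
      have hn0 : (0 : ℝ) < n := by exact_mod_cast hn.1.1
      apply wt_block (2 ^ i) h L y n _ hXr hhr (by linarith) hn0 hy0
        (by exact_mod_cast hn.1.2) hy4 (by positivity)
      have h1 : ((n - (x + h) - 1) / h) * h ≤ n - (x + h) - 1 := Nat.div_mul_le_self _ _
      have h2 : ((((n - (x + h) - 1) / h : ℕ)) : ℝ) * h ≤ n - (x + h) := by
        have h3 : ((n - (x + h) - 1) / h) * h + (x + h) ≤ n := by omega
        have h4 : ((((n - (x + h) - 1) / h : ℕ)) : ℝ) * h + (x + h) ≤ n := by exact_mod_cast h3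
        linarith
      refine le_trans ?_ (le_abs_self _)
      rw [hyx]
      linarith
    · intro m
      by_cases hm : x + h + m * h ≤ 4 * 2 ^ i
      · refine le_trans ?_ (hmass (x + h + m * h) hm)
        apply sum_le_sum_of_subset_of_nonneg
        · intro n hn
          simp only [hS, mem_filter, mem_Icc, mem_Ioc] at hn ⊢
          obtain ⟨⟨⟨h1, h2⟩, h3⟩, h4⟩ := hn
          rw [Nat.div_eq_iff hh0] at h4
          have h6 : m * h = h * m := mul_comm _ _
          omega
        · intro n _ _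
          exact ArithmeticFunction.vonMangoldt_nonneg
      · have : (S.filter (fun n => x + h < n)).filter (fun n => (n - (x + h) - 1) / h = m) = ∅ := by
          apply filter_eq_empty_iff.mpr
          intro n hn hc
          simp only [hS, mem_filter, mem_Icc] at hn
          rw [Nat.div_eq_iff hh0] at hc
          have h6 : m * h = h * m := mul_comm _ _
          omega
        rw [this, sum_empty]
        positivity
  -- the cell
  have hmid : ∑ n ∈ Ioc x (x + h), Λ n * wt η y n ≤ 2 * c * h + ε * h := by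
    have h1 : ∑ n ∈ Ioc x (x + h), Λ n * wt η y n ≤ ∑ n ∈ Ioc x (x + h), Λ n := by
      apply sum_le_sum
      intro n _
      calc Λ n * wt η y n ≤ Λ n * 1 :=
            mul_le_mul_of_nonneg_left (wt_le_one _ _ _) ArithmeticFunction.vonMangoldt_nonneg
        _ = _ := mul_one _
    rw [← sum_filter_add_sum_filter_not (Ioc x (x + h)) Nat.Prime (fun n => Λ n)] at h1
    have h2 : ∑ n ∈ (Ioc x (x + h)).filter Nat.Prime, Λ n ≤ 2 * c * h := by
      have h3 : ∑ n ∈ (Ioc x (x + h)).filter Nat.Prime, Λ n ≤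
          (((Ioc x (x + h)).filter Nat.Prime).card : ℝ) * (2 * i) := by
        rw [← nsmul_eq_mul, ← sum_const]
        apply sum_le_sum
        intro n hn
        rw [mem_filter, mem_Ioc] at hn
        have hn1 : n ≤ 2 ^ (i + 1) := by
          have : 2 ^ (i + 1) = 2 * 2 ^ i := by rw [pow_succ]; ring
          omega
        calc Λ n ≤ Real.log n := ArithmeticFunction.vonMangoldt_le_log
          _ ≤ Real.log ((2 : ℝ) ^ (i + 1)) := by
              apply Real.log_le_log (by exact_mod_cast hn.2.pos)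
              exact_mod_cast hn1
          _ = (i + 1) * Real.log 2 := by rw [Real.log_pow]; push_cast; ring
          _ ≤ (i + 1) * 1 := by
              apply mul_le_mul_of_nonneg_left _ (by positivity)
              linarith [Real.log_two_lt_d9]
          _ ≤ 2 * i := by
              have : (1 : ℝ) ≤ i := by exact_mod_cast hi
              linarith
      have h4 : (0 : ℝ) < i := by exact_mod_cast hi
      calc _ ≤ (((Ioc x (x + h)).filter Nat.Prime).card : ℝ) * (2 * i) := h3
        _ ≤ (c * h / i) * (2 * i) := mul_le_mul_of_nonneg_right hcell (by positivity)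
        _ = _ := by field_simp
    have h5 := hpp x (by omega)
    linarith
  linarith

/-- (CL) -/
theorem cellLow : T_CL := by
  intro hb
  obtain ⟨C₁, hC₁, hmass⟩ := mass_all hb
  set L : ℝ := 2097152 * (C₁ + 1) with hL
  have hL8 : 8 ≤ L := by rw [hL]; nlinarith
  have hL0 : 0 < L := by linarith
  refine ⟨1 / (32 * L), L, by positivity, by linarith, ?_⟩
  intro δ hδ hδ'
  have hexp : 4 * Real.exp (-L ^ 2 / 128) * C₁ ≤ 1 / (16 * L) := by
    have h1 : (L ^ 2 / 128) ^ 2 / 2 ≤ Real.exp (L ^ 2 / 128) := by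
      have := Real.quadratic_le_exp_of_nonneg (show 0 ≤ L ^ 2 / 128 by positivity)
      have : 0 ≤ L ^ 2 / 128 := by positivity
      linarith
    have h2 : 64 * C₁ * L ≤ (L ^ 2 / 128) ^ 2 / 2 := by
      have h3 : 2097152 * C₁ ≤ L := by rw [hL]; linarith
      have h4 : 2097152 * C₁ ≤ L ^ 3 := by
        have : L ≤ L ^ 3 := by nlinarith [sq_nonneg L]
        linarith
      have h5 : 2097152 * C₁ * L ≤ L ^ 3 * L := mul_le_mul_of_nonneg_right h4 hL0.le
      nlinarith
    have h3 : 64 * C₁ * L ≤ Real.exp (L ^ 2 / 128) := h2.trans h1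
    have h4 : Real.exp (-L ^ 2 / 128) = 1 / Real.exp (L ^ 2 / 128) := by
      rw [show -L ^ 2 / 128 = -(L ^ 2 / 128) by ring, Real.exp_neg, one_div]
    rw [h4]
    have h5 := Real.exp_pos (L ^ 2 / 128)
    rw [le_div_iff₀ (by positivity)]
    have h6 : 4 * (1 / Real.exp (L ^ 2 / 128)) * C₁ * (16 * L) =
        (64 * C₁ * L) / Real.exp (L ^ 2 / 128) := by ring
    rw [h6, div_le_one h5]
    exact h3
  have hev : ∀ᶠ i : ℕ in atTop, ∀ k : ℕ, k < nc δ i →
    (((cell δ i k).filter Nat.Prime).card : ℝ) < 1 / (32 * L) * hh δ i / i →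
      1 / (32 * L) * (hh δ i / (L * 2 ^ i) * 2 ^ i) ≤
        |DG (hh δ i / (L * 2 ^ i)) (2 ^ i + (k + 1 / 2) * hh δ i) -
          MG (hh δ i / (L * 2 ^ i)) (2 ^ i + (k + 1 / 2) * hh δ i)| := by
    filter_upwards [hmass δ hδ hδ', mass_pp (1 / (16 * L)) (by positivity) δ hδ hδ',
      growth 24 1 (by norm_num) 1, growth (96 * L) (1 / 4) (by norm_num) 0,
      eventually_ge_atTop 1] with i hm hp hg1 hg2 hi1 k hk hcell
    set h : ℕ := hh δ i with hhdef
    have hh0 : 0 < h := hh_pos δ i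
    have hhr : (0 : ℝ) < h := by exact_mod_cast hh0
    have hXr : (0 : ℝ) < 2 ^ i := by positivity
    have hkh : (k + 1) * h ≤ 2 ^ i := by
      have h1 : k + 1 ≤ 2 ^ i / h := hk
      exact (Nat.mul_le_mul_right h h1).trans (Nat.div_mul_le_self _ _)
    have hkh' : ((k : ℝ) + 1) * h ≤ 2 ^ i := by exact_mod_cast hkh
    have hg1' : 16 * (i : ℝ) + 24 ≤ 2 ^ i := by
      rw [one_mul, Real.rpow_natCast, pow_one] at hg1
      have : (0 : ℝ) ≤ i := by positivity
      linarith
    have hh96 : 48 * L ≤ h := by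
      have h1 := le_hh δ hδ' i
      rw [pow_zero, mul_one] at hg2
      have : 96 * L ≤ 2 * (h : ℝ) := hg2.trans h1
      linarith
    have hη0 : 0 < (h : ℝ) / (L * 2 ^ i) := by positivity
    have hη2 : ((h : ℝ) / (L * 2 ^ i)) ^ 2 * 2 ^ i ≤ 1 := by
      have h1 := hh_le δ hδ hδ' i
      have h2 : (h : ℝ) ^ 2 ≤ 2 ^ i := by
        have h3 : ((2 : ℝ) ^ ((1 / 2 : ℝ) * i)) ^ 2 = 2 ^ i := by
          rw [← Real.rpow_natCast, ← Real.rpow_mul (by norm_num), ← Real.rpow_natCast]
          congr 1; push_cast; ring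
        rw [← h3]
        exact pow_le_pow_left₀ hhr.le h1 2
      have h4 : ((h : ℝ) / (L * 2 ^ i)) ^ 2 * 2 ^ i = (h : ℝ) ^ 2 / (L ^ 2 * 2 ^ i) := by
        field_simp
      rw [h4, div_le_one (by positivity)]
      have h5 : 1 ≤ L ^ 2 := by nlinarith
      nlinarith
    have hy1 : (2 : ℝ) ^ i ≤ 2 ^ i + (k + 1 / 2) * h := by
      have : (0 : ℝ) ≤ (k + 1 / 2) * h := by positivity
      linarith
    have hy2 : (2 : ℝ) ^ i + (k + 1 / 2) * h ≤ 2 * 2 ^ i := by nlinarith
    have hy3 : (1 : ℝ) ≤ 2 ^ i + (k + 1 / 2) * h := le_trans (one_le_pow₀ (by norm_num)) hy1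
    have hDG := DG_le i _ _ hη0 hη2 hy1 hy2 hg1'
    have hnear := near_sum C₁ L (1 / (16 * L)) (1 / (32 * L)) hC₁ hL8 i k h hh0 hkh hm hp hi1
      hcell.le
    have hMG := MG_lower _ _ hη0 hy3
    have hMG2 : (h : ℝ) / (2 * L) ≤ MG ((h : ℝ) / (L * 2 ^ i)) (2 ^ i + (k + 1 / 2) * h) := by
      refine le_trans ?_ hMG
      have h1 : (h : ℝ) / (2 * L) = (h : ℝ) / (L * 2 ^ i) * 2 ^ i / 2 := by
        field_simp
      rw [h1]
      have := mul_le_mul_of_nonneg_left hy1 hη0.le
      linarith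
    have hE : 4 * Real.exp (-L ^ 2 / 128) * (C₁ * h) ≤ 1 / (16 * L) * h := by
      have := mul_le_mul_of_nonneg_right hexp hhr.le
      linarith
    have h3 : (3 : ℝ) ≤ 1 / (16 * L) * h := by
      rw [div_mul_eq_mul_div, le_div_iff₀ (by positivity)]
      linarith
    have hDG2 : DG ((h : ℝ) / (L * 2 ^ i)) (2 ^ i + (k + 1 / 2) * h) ≤ (h : ℝ) / (4 * L) := by
      have e1 : 2 * (1 / (32 * L)) * (h : ℝ) = 1 / (16 * L) * h := by field_simp; ring
      have e2 : (h : ℝ) / (4 * L) = 4 * (1 / (16 * L) * h) := by field_simp; ring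
      rw [e1] at hnear
      rw [e2]
      linarith
    have hfin : 1 / (32 * L) * ((h : ℝ) / (L * 2 ^ i) * 2 ^ i) ≤ (h : ℝ) / (4 * L) := by
      have e1 : (h : ℝ) / (L * 2 ^ i) * 2 ^ i = h / L := by field_simp
      rw [e1]
      have e2 : (h : ℝ) / (4 * L) = 1 / 4 * (h / L) := by field_simp
      rw [e2]
      apply mul_le_mul_of_nonneg_right _ (by positivity)
      apply one_div_le_one_div_of_le (by norm_num)
      linarith
    have e3 : (h : ℝ) / (2 * L) = h / (4 * L) + h / (4 * L) := by field_simp; ring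
    rw [abs_sub_comm]
    refine le_trans ?_ (le_abs_self _)
    linarith
  obtain ⟨i₀, hi₀⟩ := eventually_atTop.mp hev
  exact ⟨max i₀ 1, le_max_right _ _, fun i hi => hi₀ i (le_trans (le_max_left _ _) hi)⟩

end Pool.Agent.W815.CL
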