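import Pool.Agent.W76.MO.Stmts

/-!
# MO-CL, part 1: growth, prime powers in short intervals, mass of short intervals
-/

set_option autoImplicit false

namespace Pool.Agent.W815.CL

open Finset Filter Topology Pool.Agent.W76.MO
open scoped Classical

open scoped ArithmeticFunction.vonMangoldt

/-- powers of 2 beat polynomials -/
lemma growth (K ρ : ℝ) (hρ : 0 < ρ) (d : ℕ) :
    ∀ᶠ i : ℕ in atTop, K * ((i : ℝ) + 3) ^ d ≤ (2 : ℝ) ^ (ρ * i) := by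
  have h1 : (1 : ℝ) < (2 : ℝ) ^ ρ := Real.one_lt_rpow (by norm_num) hρ
  have h2 := isLittleO_pow_const_const_pow_of_one_lt (R := ℝ) d h1
  have hc : 0 < ((2 : ℝ) ^ ρ) ^ (3 : ℕ) * (|K| + 1) := by positivity
  have h3 := h2.bound (inv_pos.mpr hc)
  have h4 : ∀ᶠ i : ℕ in atTop, ‖((i + 3 : ℕ) : ℝ) ^ d‖ ≤
      (((2 : ℝ) ^ ρ) ^ (3 : ℕ) * (|K| + 1))⁻¹ * ‖((2 : ℝ) ^ ρ) ^ (i + 3)‖ :=
    (tendsto_add_atTop_nat 3).eventually h3
  filter_upwards [h4] with i hi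
  have hpos : (0 : ℝ) < (2 : ℝ) ^ ρ := by positivity
  rw [Real.norm_of_nonneg (by positivity), Real.norm_of_nonneg (by positivity), pow_add] at hi
  push_cast at hi
  have h5 : (2 : ℝ) ^ (ρ * i) = ((2 : ℝ) ^ ρ) ^ i := by
    rw [Real.rpow_mul (by norm_num), Real.rpow_natCast]
  rw [h5]
  have h6 : (((2 : ℝ) ^ ρ) ^ (3 : ℕ) * (|K| + 1))⁻¹ * (((2 : ℝ) ^ ρ) ^ i * ((2 : ℝ) ^ ρ) ^ 3) =
      ((2 : ℝ) ^ ρ) ^ i / (|K| + 1) := by
    field_simp
  rw [h6, le_div_iff₀ (by positivity)] at hi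
  calc K * ((i : ℝ) + 3) ^ d ≤ (|K| + 1) * ((i : ℝ) + 3) ^ d := by
        apply mul_le_mul_of_nonneg_right _ (by positivity)
        linarith [le_abs_self K]
    _ = ((i : ℝ) + 3) ^ d * (|K| + 1) := by ring
    _ ≤ _ := hi

/-- number of `m` with `a < m^k ≤ a + h`, `k ≥ 2` -/
lemma card_pow (a h N k : ℕ) (hk : 2 ≤ k) :
    ((range N).filter (fun m => a < m ^ k ∧ m ^ k ≤ a + h)).card ≤ Nat.sqrt h + 1 := by
  set S := (range N).filter (fun m => a < m ^ k ∧ m ^ k ≤ a + h) with hS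
  rcases S.eq_empty_or_nonempty with he | hne
  · rw [he]; simp
  · have hsub : S ⊆ Icc (S.min' hne) (S.min' hne + Nat.sqrt h) := by
      intro m hm
      rw [mem_Icc]
      refine ⟨S.min'_le m hm, ?_⟩
      have h1 : S.min' hne ≤ m := S.min'_le m hm
      obtain ⟨d, hd⟩ := Nat.exists_eq_add_of_le h1
      have h2 := (mem_filter.mp (S.min'_mem hne)).2
      have hm := (mem_filter.mp hm).2
      rw [hd]
      apply Nat.add_le_add_left
      rw [Nat.le_sqrt']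
      rcases Nat.eq_zero_or_pos d with h0 | hdpos
      · rw [h0]; simp
      · have h3 : d ^ 2 ≤ d ^ k := Nat.pow_le_pow_right hdpos hk
        have h4 : (S.min' hne) ^ k + d ^ k ≤ m ^ k := by
          rw [hd]
          exact pow_add_pow_le (Nat.zero_le _) (Nat.zero_le _) (by omega)
        omega
    calc S.card ≤ (Icc (S.min' hne) (S.min' hne + Nat.sqrt h)).card := card_le_card hsub
      _ = _ := by rw [Nat.card_Icc]; omega

/-- number of proper prime powers in `(a, a+h]` -/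
lemma card_primePow (a h B : ℕ) (hB : a + h < 2 ^ B) :
    ((Ioc a (a + h)).filter (fun n => IsPrimePow n ∧ ¬ n.Prime)).card ≤ B * (Nat.sqrt h + 1) := by
  have hsub : (Ioc a (a + h)).filter (fun n => IsPrimePow n ∧ ¬ n.Prime) ⊆
      (Ico 2 (B + 1)).biUnion (fun k =>
        ((range (a + h + 1)).filter (fun m => a < m ^ k ∧ m ^ k ≤ a + h)).image (fun m => m ^ k)) := by
    intro n hn
    rw [mem_filter, mem_Ioc] at hn
    obtain ⟨⟨h1, h2⟩, h3, h4⟩ := hn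
    obtain ⟨p, k, hp, hk, rfl⟩ := h3
    have hp' : p.Prime := hp.nat_prime
    have hk2 : 2 ≤ k := by
      by_contra hlt
      have : k = 1 := by omega
      rw [this, pow_one] at h4
      exact h4 hp'
    have hkB : k < B := by
      have : 2 ^ k ≤ p ^ k := Nat.pow_le_pow_left hp'.two_le k
      exact (Nat.pow_lt_pow_iff_right (by norm_num : 1 < 2)).mp (by omega)
    rw [mem_biUnion]
    refine ⟨k, by rw [mem_Ico]; omega, ?_⟩
    rw [mem_image]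
    refine ⟨p, ?_, rfl⟩
    rw [mem_filter, mem_range]
    have : p ≤ p ^ k := Nat.le_self_pow (by omega) p
    exact ⟨by omega, h1, h2⟩
  calc _ ≤ _ := card_le_card hsub
    _ ≤ ∑ k ∈ Ico 2 (B + 1), (((range (a + h + 1)).filter
          (fun m => a < m ^ k ∧ m ^ k ≤ a + h)).image (fun m => m ^ k)).card := card_biUnion_le
    _ ≤ ∑ _k ∈ Ico 2 (B + 1), (Nat.sqrt h + 1) := by
        apply sum_le_sum
        intro k hk
        rw [mem_Ico] at hk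
        exact le_trans card_image_le (card_pow a h _ k hk.1)
    _ ≤ _ := by
        rw [sum_const, smul_eq_mul, Nat.card_Ico]
        exact Nat.mul_le_mul_right _ (by omega)

/-- `Λ n ≤ i + 3` for `n < 2^(i+3)` -/
lemma vM_le (i n : ℕ) (hn : n < 2 ^ (i + 3)) : Λ n ≤ (i : ℝ) + 3 := by
  rcases Nat.eq_zero_or_pos n with h0 | hpos
  · subst h0
    rw [ArithmeticFunction.map_zero]; positivity
  · calc Λ n ≤ Real.log n := ArithmeticFunction.vonMangoldt_le_log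
      _ ≤ Real.log ((2 : ℝ) ^ (i + 3)) := by
          apply Real.log_le_log (by exact_mod_cast hpos)
          exact_mod_cast hn.le
      _ = (i + 3) * Real.log 2 := by rw [Real.log_pow]; push_cast; ring
      _ ≤ (i + 3) * 1 := by
          apply mul_le_mul_of_nonneg_left _ (by positivity)
          linarith [Real.log_two_lt_d9]
      _ = _ := by ring

lemma hh_le (δ : ℝ) (hδ : 0 < δ) (hδ' : δ < 1 / 4) (i : ℕ) :
    (hh δ i : ℝ) ≤ (2 : ℝ) ^ ((1 / 2 : ℝ) * i) := by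
  unfold hh
  push_cast
  rw [← Real.rpow_natCast]
  apply Real.rpow_le_rpow_of_exponent_le (by norm_num)
  have h0 : 0 ≤ (1 / 2 - δ) * (i : ℝ) := mul_nonneg (by linarith) (by positivity)
  calc ((⌊(1 / 2 - δ) * (i : ℝ)⌋₊ : ℕ) : ℝ) ≤ (1 / 2 - δ) * i := Nat.floor_le h0
    _ ≤ 1 / 2 * i := by apply mul_le_mul_of_nonneg_right (by linarith) (by positivity)

lemma le_hh (δ : ℝ) (hδ' : δ < 1 / 4) (i : ℕ) :
    (2 : ℝ) ^ ((1 / 4 : ℝ) * i) ≤ 2 * hh δ i := by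
  unfold hh
  push_cast
  have h1 : (2 : ℝ) * 2 ^ ⌊(1 / 2 - δ) * (i : ℝ)⌋₊ = (2 : ℝ) ^ (((⌊(1 / 2 - δ) * (i : ℝ)⌋₊ + 1 : ℕ)) : ℝ) := by
    rw [Real.rpow_natCast, pow_succ]; ring
  rw [h1]
  apply Real.rpow_le_rpow_of_exponent_le (by norm_num)
  push_cast
  have := Nat.lt_floor_add_one ((1 / 2 - δ) * (i : ℝ))
  have h2 : (1 / 4 : ℝ) * i ≤ (1 / 2 - δ) * i := by
    apply mul_le_mul_of_nonneg_right (by linarith) (by positivity)
  linarith

lemma hh_pos (δ : ℝ) (i : ℕ) : 0 < hh δ i := by unfold hh; positivity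

lemma hh_le_nat (δ : ℝ) (hδ : 0 < δ) (hδ' : δ < 1 / 4) (i : ℕ) : hh δ i ≤ 2 ^ i := by
  have h1 := hh_le δ hδ hδ' i
  have h2 : (2 : ℝ) ^ ((1 / 2 : ℝ) * i) ≤ (2 : ℝ) ^ (i : ℝ) := by
    apply Real.rpow_le_rpow_of_exponent_le (by norm_num)
    have : (0 : ℝ) ≤ i := by positivity
    linarith
  rw [Real.rpow_natCast] at h2
  exact_mod_cast h1.trans h2

/-- prime powers have small mass in all short intervals -/
lemma mass_pp (ε : ℝ) (hε : 0 < ε) (δ : ℝ) (hδ : 0 < δ) (hδ' : δ < 1 / 4) :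
    ∀ᶠ i : ℕ in atTop, ∀ a : ℕ, a ≤ 4 * 2 ^ i →
      ∑ n ∈ (Ioc a (a + hh δ i)).filter (fun n => ¬ n.Prime), Λ n ≤ ε * hh δ i := by
  filter_upwards [growth (4 / ε) (1 / 8) (by norm_num) 2] with i hi a ha
  have hh2 := hh_le_nat δ hδ hδ' i
  have hB : a + hh δ i < 2 ^ (i + 3) := by
    have : (2 : ℕ) ^ (i + 3) = 8 * 2 ^ i := by rw [pow_add]; ring
    have : 0 < 2 ^ i := by positivity
    omega
  have h1 : ∑ n ∈ (Ioc a (a + hh δ i)).filter (fun n => ¬ n.Prime), Λ n =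
      ∑ n ∈ (Ioc a (a + hh δ i)).filter (fun n => IsPrimePow n ∧ ¬ n.Prime), Λ n := by
    symm
    apply sum_subset
    · intro n hn
      rw [mem_filter] at hn ⊢
      exact ⟨hn.1, hn.2.2⟩
    · intro n hn hn2
      rw [mem_filter] at hn hn2
      rw [ArithmeticFunction.vonMangoldt_eq_zero_iff]
      intro hpp
      exact hn2 ⟨hn.1, hpp, hn.2⟩
  rw [h1]
  have h2 : ∑ n ∈ (Ioc a (a + hh δ i)).filter (fun n => IsPrimePow n ∧ ¬ n.Prime), Λ n ≤
      ∑ n ∈ (Ioc a (a + hh δ i)).filter (fun n => IsPrimePow n ∧ ¬ n.Prime), ((i : ℝ) + 3) := by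
    apply sum_le_sum
    intro n hn
    rw [mem_filter, mem_Ioc] at hn
    exact vM_le i n (by omega)
  rw [sum_const, nsmul_eq_mul] at h2
  have h3 := card_primePow a (hh δ i) (i + 3) hB
  have h4 : (((Ioc a (a + hh δ i)).filter (fun n => IsPrimePow n ∧ ¬ n.Prime)).card : ℝ) ≤
      ((i : ℝ) + 3) * ((Nat.sqrt (hh δ i) : ℝ) + 1) := by exact_mod_cast h3
  have h5 : (1 : ℝ) ≤ Nat.sqrt (hh δ i) := by
    have : 1 ≤ Nat.sqrt (hh δ i) := by
      rw [Nat.le_sqrt']; have := hh_pos δ i; omega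
    exact_mod_cast this
  have h6 : (Nat.sqrt (hh δ i) : ℝ) ≤ Real.sqrt (hh δ i) := by
    apply Real.le_sqrt_of_sq_le
    exact_mod_cast Nat.sqrt_le' (hh δ i)
  have h7 : (2 : ℝ) ^ ((1 / 8 : ℝ) * i) ≤ 2 * Real.sqrt (hh δ i) := by
    have h8 := le_hh δ hδ' i
    have h9 : (2 : ℝ) ^ ((1 / 4 : ℝ) * i) = ((2 : ℝ) ^ ((1 / 8 : ℝ) * i)) ^ 2 := by
      rw [← Real.rpow_natCast, ← Real.rpow_mul (by norm_num)]
      congr 1; push_cast; ring
    rw [h9] at h8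
    have h10 : Real.sqrt (hh δ i) ^ 2 = hh δ i := Real.sq_sqrt (by positivity)
    have h11 : (0 : ℝ) ≤ Real.sqrt (hh δ i) := Real.sqrt_nonneg _
    nlinarith [sq_nonneg (Real.sqrt (hh δ i))]
  have h12 : Real.sqrt (hh δ i) * Real.sqrt (hh δ i) = hh δ i := Real.mul_self_sqrt (by positivity)
  have h13 : 4 / ε * ((i : ℝ) + 3) ^ 2 ≤ 2 * Real.sqrt (hh δ i) := hi.trans h7
  have h14 : 2 * ((i : ℝ) + 3) ^ 2 ≤ ε * Real.sqrt (hh δ i) := by
    have := mul_le_mul_of_nonneg_left h13 hε.le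
    have h15 : ε * (4 / ε * ((i : ℝ) + 3) ^ 2) = 4 * ((i : ℝ) + 3) ^ 2 := by field_simp
    rw [h15] at this
    linarith
  have hi0 : (0 : ℝ) ≤ (i : ℝ) + 3 := by positivity
  calc _ ≤ (((Ioc a (a + hh δ i)).filter (fun n => IsPrimePow n ∧ ¬ n.Prime)).card : ℝ) *
        ((i : ℝ) + 3) := h2
    _ ≤ (((i : ℝ) + 3) * ((Nat.sqrt (hh δ i) : ℝ) + 1)) * ((i : ℝ) + 3) :=
        mul_le_mul_of_nonneg_right h4 hi0
    _ ≤ (((i : ℝ) + 3) * (2 * Real.sqrt (hh δ i))) * ((i : ℝ) + 3) := by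
        apply mul_le_mul_of_nonneg_right _ hi0
        apply mul_le_mul_of_nonneg_left _ hi0
        linarith
    _ = (2 * ((i : ℝ) + 3) ^ 2) * Real.sqrt (hh δ i) := by ring
    _ ≤ (ε * Real.sqrt (hh δ i)) * Real.sqrt (hh δ i) :=
        mul_le_mul_of_nonneg_right h14 (Real.sqrt_nonneg _)
    _ = ε * hh δ i := by rw [mul_assoc, h12]

/-- the mass of every short interval is `O(h)`, uniformly in `δ` -/
lemma mass_all (hb : BTR) : ∃ C : ℝ, 0 < C ∧ ∀ δ : ℝ, 0 < δ → δ < 1 / 4 →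
    ∀ᶠ i : ℕ in atTop, ∀ a : ℕ, a ≤ 4 * 2 ^ i →
      ∑ n ∈ Ioc a (a + hh δ i), Λ n ≤ C * hh δ i := by
  obtain ⟨C, hC, i₀, hi₀, hbtr⟩ := hb (1 / 8) (1 / 5) (by norm_num) (by norm_num)
  refine ⟨4 * C + 2, by linarith, ?_⟩
  intro δ hδ hδ'
  filter_upwards [mass_pp 1 one_pos δ hδ hδ', growth 2 (1 / 8) (by norm_num) 1,
    growth 2 (1 / 20) (by norm_num) 0, eventually_ge_atTop i₀, eventually_ge_atTop 1] with
    i hpp hg hg2 hii hi1 a ha
  have hh2 := hh_le_nat δ hδ hδ' i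
  have hB : a + hh δ i < 2 ^ (i + 3) := by
    have : (2 : ℕ) ^ (i + 3) = 8 * 2 ^ i := by rw [pow_add]; ring
    have : 0 < 2 ^ i := by positivity
    omega
  have hL : (2 : ℝ) ^ ((1 / 5 : ℝ) * i) ≤ hh δ i := by
    have h1 := le_hh δ hδ' i
    have h2 : (2 : ℝ) ^ ((1 / 4 : ℝ) * i) = (2 : ℝ) ^ ((1 / 5 : ℝ) * i) * (2 : ℝ) ^ ((1 / 20 : ℝ) * i) := by
      rw [← Real.rpow_add (by norm_num)]; congr 1; ring
    rw [h2] at h1
    have h3 : (2 : ℝ) ≤ (2 : ℝ) ^ ((1 / 20 : ℝ) * i) := by simpa using hg2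
    have h4 : (0 : ℝ) < (2 : ℝ) ^ ((1 / 5 : ℝ) * i) := by positivity
    nlinarith
  have hcount := hbtr i hii a (hh δ i) hL
  have hsplit : ∑ n ∈ Ioc a (a + hh δ i), Λ n =
      ∑ n ∈ (Ioc a (a + hh δ i)).filter (fun n => n.Prime), Λ n +
      ∑ n ∈ (Ioc a (a + hh δ i)).filter (fun n => ¬ n.Prime), Λ n :=
    (sum_filter_add_sum_filter_not _ _ _).symm
  rw [hsplit]
  have hpr : ∑ n ∈ (Ioc a (a + hh δ i)).filter (fun n => n.Prime), Λ n ≤
      (((Ioc a (a + hh δ i)).filter (fun n => n.Prime)).card : ℝ) * ((i : ℝ) + 3) := by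
    rw [← nsmul_eq_mul, ← sum_const]
    apply sum_le_sum
    intro n hn
    rw [mem_filter, mem_Ioc] at hn
    exact vM_le i n (by omega)
  have hsub : (Ioc a (a + hh δ i)).filter (fun n => n.Prime) ⊆
      (Ioc a (a + hh δ i)).filter (fun n => Rough ((2 : ℝ) ^ ((1 / 8 : ℝ) * i)) n) ∪
      (Icc 1 ⌊(2 : ℝ) ^ ((1 / 8 : ℝ) * i)⌋₊) := by
    intro n hn
    rw [mem_filter] at hn
    rw [mem_union, mem_filter, mem_Icc]
    by_cases hc : (2 : ℝ) ^ ((1 / 8 : ℝ) * i) ≤ n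
    · left
      refine ⟨hn.1, ?_⟩
      intro p hp hpn
      have : p = n := (Nat.prime_dvd_prime_iff_eq hp hn.2).mp hpn
      rw [this]; exact hc
    · right
      exact ⟨hn.2.one_le, Nat.le_floor (le_of_lt (not_le.mp hc))⟩
  have hcard : (((Ioc a (a + hh δ i)).filter (fun n => n.Prime)).card : ℝ) ≤
      C * hh δ i / i + (2 : ℝ) ^ ((1 / 8 : ℝ) * i) := by
    have h1 : (((Ioc a (a + hh δ i)).filter (fun n => n.Prime)).card : ℝ) ≤
      ((((Ioc a (a + hh δ i)).filter (fun n => Rough ((2 : ℝ) ^ ((1 / 8 : ℝ) * i)) n)).card +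
      (Icc 1 ⌊(2 : ℝ) ^ ((1 / 8 : ℝ) * i)⌋₊).card : ℕ) : ℝ) := by
      exact_mod_cast le_trans (card_le_card hsub) (card_union_le _ _)
    push_cast at h1
    rw [Nat.card_Icc] at h1
    have h2 : ((⌊(2 : ℝ) ^ ((1 / 8 : ℝ) * i)⌋₊ + 1 - 1 : ℕ) : ℝ) ≤ (2 : ℝ) ^ ((1 / 8 : ℝ) * i) := by
      rw [Nat.add_sub_cancel]
      exact Nat.floor_le (by positivity)
    linarith
  have hi1' : (1 : ℝ) ≤ i := by exact_mod_cast hi1
  have h20 : ((i : ℝ) + 3) * (2 : ℝ) ^ ((1 / 8 : ℝ) * i) ≤ hh δ i := by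
    have h1 := le_hh δ hδ' i
    have h2 : (2 : ℝ) ^ ((1 / 4 : ℝ) * i) = (2 : ℝ) ^ ((1 / 8 : ℝ) * i) * (2 : ℝ) ^ ((1 / 8 : ℝ) * i) := by
      rw [← Real.rpow_add (by norm_num)]; congr 1; ring
    rw [h2] at h1
    rw [pow_one] at hg
    have h4 : (0 : ℝ) < (2 : ℝ) ^ ((1 / 8 : ℝ) * i) := by positivity
    nlinarith
  have h21 : (C * hh δ i / i) * ((i : ℝ) + 3) ≤ 4 * C * hh δ i := by
    rw [div_mul_eq_mul_div, div_le_iff₀ (by linarith)]
    have : 0 ≤ C * hh δ i := by positivity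
    nlinarith
  have := hpp a ha
  calc _ ≤ (C * hh δ i / i + (2 : ℝ) ^ ((1 / 8 : ℝ) * i)) * ((i : ℝ) + 3) + 1 * hh δ i := by
        apply add_le_add (hpr.trans _) this
        exact mul_le_mul_of_nonneg_right hcard (by positivity)
    _ = (C * hh δ i / i) * ((i : ℝ) + 3) + ((i : ℝ) + 3) * (2 : ℝ) ^ ((1 / 8 : ℝ) * i) + hh δ i := by ring
    _ ≤ 4 * C * hh δ i + hh δ i + hh δ i := by linarith
    _ = _ := by ring

end Pool.Agent.W815.CL
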