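import Pool.Agent.W815.MO.CL1

/-!
# MO-CL, part 2: the Gaussian prime sum of a cell with few primes
-/

set_option autoImplicit false

namespace Pool.Agent.W815.CL

open Finset Filter Topology Pool.Agent.W76.MO
open scoped Classical

open scoped ArithmeticFunction.vonMangoldt

/-- the weight -/
noncomputable def wt (η y x : ℝ) : ℝ := Real.exp (-(Real.log x - Real.log y) ^ 2 / (2 * η ^ 2))

lemma wt_nonneg (η y x : ℝ) : 0 ≤ wt η y x := (Real.exp_pos _).le

lemma wt_le_one (η y x : ℝ) : wt η y x ≤ 1 := by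
  unfold wt
  rw [Real.exp_le_one_iff]
  apply div_nonpos_of_nonpos_of_nonneg
  · nlinarith [sq_nonneg (Real.log x - Real.log y)]
  · positivity

lemma wt_le_pow (η y x : ℝ) (hη : 0 < η) (hy : 0 < y) (hx : 0 < x) :
    wt η y x ≤ Real.exp (2 * η ^ 2) * y ^ 2 * x ^ (-2 : ℝ) := by
  have h1 : Real.exp (2 * η ^ 2) * y ^ 2 * x ^ (-2 : ℝ) =
      Real.exp (2 * η ^ 2 - 2 * (Real.log x - Real.log y)) := by
    have e1 : y ^ 2 = Real.exp (2 * Real.log y) := by
      rw [mul_comm, Real.exp_mul, Real.exp_log hy]; norm_cast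
    have e2 : x ^ (-2 : ℝ) = Real.exp (-2 * Real.log x) := by
      rw [Real.rpow_def_of_pos hx]; congr 1; ring
    rw [e1, e2, ← Real.exp_add, ← Real.exp_add]
    congr 1; ring
  rw [h1]
  unfold wt
  apply Real.exp_le_exp.mpr
  rw [div_le_iff₀ (by positivity)]
  nlinarith [sq_nonneg ((Real.log x - Real.log y) - 2 * η ^ 2)]

lemma wt_integrable (η y : ℝ) (hη : 0 < η) (hy : 0 < y) :
    MeasureTheory.IntegrableOn (fun x => wt η y x) (Set.Ioi (1 : ℝ)) := by
  have h1 : MeasureTheory.IntegrableOn (fun x : ℝ => Real.exp (2 * η ^ 2) * y ^ 2 * x ^ (-2 : ℝ))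
      (Set.Ioi (1 : ℝ)) :=
    (integrableOn_Ioi_rpow_of_lt (by norm_num) one_pos).const_mul _
  refine MeasureTheory.Integrable.mono' h1 ?_ ?_
  · apply Measurable.aestronglyMeasurable
    unfold wt
    fun_prop
  · rw [MeasureTheory.ae_restrict_iff' measurableSet_Ioi]
    filter_upwards with x hx
    rw [Real.norm_of_nonneg (wt_nonneg _ _ _)]
    exact wt_le_pow η y x hη hy (lt_trans one_pos hx)

/-- the main term is large -/
lemma MG_lower (η y : ℝ) (hη : 0 < η) (hy : 1 ≤ y) : η * y / 2 ≤ MG η y := by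
  have hy0 : 0 < y := by linarith
  have hint := wt_integrable η y hη hy0
  have hsub : Set.Ioc y (y * (1 + η)) ⊆ Set.Ioi (1 : ℝ) := fun x hx => lt_of_le_of_lt hy hx.1
  have h1 : ∫ x in Set.Ioc y (y * (1 + η)), wt η y x ≤ MG η y := by
    have : MG η y = ∫ x in Set.Ioi (1 : ℝ), wt η y x := rfl
    rw [this]
    apply MeasureTheory.setIntegral_mono_set hint
    · filter_upwards with x using wt_nonneg _ _ _
    · exact hsub.eventuallyLE
  have h2 : ∫ _x in Set.Ioc y (y * (1 + η)), (1 / 2 : ℝ) ≤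
      ∫ x in Set.Ioc y (y * (1 + η)), wt η y x := by
    apply MeasureTheory.setIntegral_mono_on
    · exact MeasureTheory.integrableOn_const (by simp)
    · exact hint.mono_set hsub
    · exact measurableSet_Ioc
    · intro x hx
      have hx0 : 0 < x := lt_trans hy0 hx.1
      have h3 : 0 ≤ Real.log x - Real.log y := by
        have := Real.log_le_log hy0 hx.1.le
        linarith
      have h4 : Real.log x - Real.log y ≤ η := by
        rw [← Real.log_div hx0.ne' hy0.ne']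
        have h5 : Real.log (x / y) ≤ x / y - 1 := Real.log_le_sub_one_of_pos (by positivity)
        have h6 : x / y ≤ 1 + η := by
          rw [div_le_iff₀ hy0]; linarith [hx.2]
        linarith
      unfold wt
      have h7 : -1 / 2 ≤ -(Real.log x - Real.log y) ^ 2 / (2 * η ^ 2) := by
        rw [div_le_div_iff₀ (by norm_num) (by positivity)]
        nlinarith
      calc (1 / 2 : ℝ) = -1 / 2 + 1 := by norm_num
        _ ≤ Real.exp (-1 / 2) := Real.add_one_le_exp _
        _ ≤ _ := Real.exp_le_exp.mpr h7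
  have h3 : ∫ _x in Set.Ioc y (y * (1 + η)), (1 / 2 : ℝ) = η * y / 2 := by
    rw [MeasureTheory.setIntegral_const]
    rw [MeasureTheory.measureReal_def, Real.volume_Ioc, ENNReal.toReal_ofReal (by nlinarith)]
    rw [smul_eq_mul]; ring
  linarith

/-- the far part -/
lemma tail (i : ℕ) (η y : ℝ) (hη : 0 < η) (hη2 : η ^ 2 * 2 ^ i ≤ 1) (hy1 : (2 : ℝ) ^ i ≤ y)
    (hy2 : y ≤ 2 * 2 ^ i) (hi : 16 * (i : ℝ) + 24 ≤ 2 ^ i) (n : ℕ) (hn : 4 * 2 ^ i < n) :
    Λ n * wt η y n ≤ 1 / (n : ℝ) ^ 2 := by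
  have hX : (0 : ℝ) < 2 ^ i := by positivity
  have hn' : (4 : ℝ) * 2 ^ i < n := by exact_mod_cast hn
  have hn0 : (0 : ℝ) < n := by nlinarith
  have hy0 : 0 < y := by linarith
  set u := Real.log n - Real.log y with hu
  have hl2 : (1 / 2 : ℝ) ≤ Real.log 2 := by linarith [Real.log_two_gt_d9]
  have hu2 : Real.log 2 ≤ u := by
    rw [hu, ← Real.log_div hn0.ne' hy0.ne']
    apply Real.log_le_log (by norm_num)
    rw [le_div_iff₀ hy0]; linarith
  have hK : (4 * (i : ℝ) + 6) * (2 * η ^ 2) ≤ Real.log 2 := by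
    have h1 : (4 * (i : ℝ) + 6) ≤ 2 ^ i / 4 := by linarith
    have h2 : (4 * (i : ℝ) + 6) * (2 * η ^ 2) ≤ 2 ^ i / 4 * (2 * η ^ 2) :=
      mul_le_mul_of_nonneg_right h1 (by positivity)
    nlinarith
  have hw : wt η y n ≤ Real.exp (-((4 * (i : ℝ) + 6) * u)) := by
    unfold wt
    apply Real.exp_le_exp.mpr
    rw [div_le_iff₀ (by positivity), ← hu]
    have h1 : (4 * (i : ℝ) + 6) * (2 * η ^ 2) * u ≤ u * u :=
      mul_le_mul_of_nonneg_right (hK.trans hu2) (by linarith)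
    nlinarith
  have hw2 : Real.exp (-((4 * (i : ℝ) + 6) * u)) ≤
      Real.exp (-3 * u) * Real.exp (-((4 * (i : ℝ) + 3) * Real.log 2)) := by
    rw [← Real.exp_add]
    apply Real.exp_le_exp.mpr
    have : (4 * (i : ℝ) + 3) * Real.log 2 ≤ (4 * (i : ℝ) + 3) * u :=
      mul_le_mul_of_nonneg_left hu2 (by positivity)
    linarith
  have e1 : Real.exp (-3 * u) = (y / n) ^ 3 := by
    have : Real.log (y / n) = -u := by rw [Real.log_div hy0.ne' hn0.ne']; ring
    rw [← Real.exp_log (show 0 < y / n by positivity), this, ← Real.exp_nat_mul]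
    congr 1; push_cast; ring
  have e2 : Real.exp (-((4 * (i : ℝ) + 3) * Real.log 2)) = 1 / (2 : ℝ) ^ (4 * i + 3) := by
    rw [Real.exp_neg, mul_comm, Real.exp_mul, Real.exp_log (by norm_num)]
    rw [show (4 * (i : ℝ) + 3) = ((4 * i + 3 : ℕ) : ℝ) by push_cast; ring, Real.rpow_natCast]
    rw [one_div]
  have hL : Λ n ≤ n := ArithmeticFunction.vonMangoldt_le_log.trans
    ((Real.log_le_sub_one_of_pos hn0).trans (by linarith))
  have h3 : y ^ 3 ≤ 2 ^ (4 * i + 3) := by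
    have h4 : y ^ 3 ≤ (2 * 2 ^ i) ^ 3 := pow_le_pow_left₀ hy0.le hy2 3
    have h5 : ((2 : ℝ) * 2 ^ i) ^ 3 = 2 ^ (3 * i + 3) := by
      rw [mul_pow, ← pow_mul, pow_add]; ring
    rw [h5] at h4
    refine h4.trans (pow_le_pow_right₀ (by norm_num) (by omega))
  calc Λ n * wt η y n ≤ n * (Real.exp (-3 * u) * Real.exp (-((4 * (i : ℝ) + 3) * Real.log 2))) :=
        mul_le_mul hL (hw.trans hw2) (wt_nonneg _ _ _) hn0.le
    _ = (y ^ 3 / 2 ^ (4 * i + 3)) * (1 / (n : ℝ) ^ 2) := by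
        rw [e1, e2]; field_simp
    _ ≤ 1 * (1 / (n : ℝ) ^ 2) := by
        apply mul_le_mul_of_nonneg_right _ (by positivity)
        rw [div_le_one (by positivity)]; exact h3
    _ = _ := one_mul _

/-- logarithms are far apart -/
lemma log_gap (a b M : ℝ) (ha : 0 < a) (hab : a ≤ b) (hb : b ≤ M) :
    (b - a) / M ≤ Real.log b - Real.log a := by
  have hb0 : 0 < b := lt_of_lt_of_le ha hab
  have h1 : Real.log (a / b) ≤ a / b - 1 := Real.log_le_sub_one_of_pos (by positivity)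
  rw [Real.log_div ha.ne' hb0.ne'] at h1
  have h2 : (b - a) / M ≤ (b - a) / b :=
    div_le_div_of_nonneg_left (by linarith) hb0 hb
  have h3 : (b - a) / b = 1 - a / b := by field_simp
  linarith

lemma wt_near (η y x M D : ℝ) (hη : 0 < η) (hx : 0 < x) (hy : 0 < y) (hxM : x ≤ M) (hyM : y ≤ M)
    (hD : 0 ≤ D) (h : D ≤ |x - y|) : wt η y x ≤ Real.exp (-(D / M) ^ 2 / (2 * η ^ 2)) := by
  have hM : 0 < M := lt_of_lt_of_le hx hxM
  have h1 : D / M ≤ |Real.log x - Real.log y| := by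
    rcases le_total x y with hxy | hxy
    · have h2 := log_gap x y M hx hxy hyM
      rw [abs_sub_comm, abs_of_nonneg (by linarith)] at h
      rw [abs_sub_comm]
      exact (div_le_div_of_nonneg_right h hM.le).trans (h2.trans (le_abs_self _))
    · have h2 := log_gap y x M hy hxy hxM
      rw [abs_of_nonneg (by linarith)] at h
      exact (div_le_div_of_nonneg_right h hM.le).trans (h2.trans (le_abs_self _))
  unfold wt
  apply Real.exp_le_exp.mpr
  apply div_le_div_of_nonneg_right _ (by positivity)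
  have h3 : (D / M) ^ 2 ≤ (Real.log x - Real.log y) ^ 2 := by
    rw [← sq_abs (Real.log x - Real.log y)]
    exact pow_le_pow_left₀ (by positivity) h1 2
  linarith

/-- summation over blocks -/
lemma blocks (S : Finset ℕ) (b : ℕ → ℕ) (f w : ℕ → ℝ) (E q M₁ : ℝ) (hf : ∀ n, 0 ≤ f n)
    (hE : 0 ≤ E) (hq : 0 ≤ q) (hq2 : q ≤ 1 / 2) (hM : 0 ≤ M₁)
    (hw : ∀ n ∈ S, w n ≤ E * q ^ b n)
    (hm : ∀ m, ∑ n ∈ S.filter (fun n => b n = m), f n ≤ M₁) :
    ∑ n ∈ S, f n * w n ≤ 2 * E * M₁ := by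
  have h1 : ∑ n ∈ S, f n * w n ≤ ∑ n ∈ S, f n * (E * q ^ b n) :=
    sum_le_sum (fun n hn => mul_le_mul_of_nonneg_left (hw n hn) (hf n))
  have h2 : ∑ n ∈ S, f n * (E * q ^ b n) =
      ∑ m ∈ range (S.sup b + 1), ∑ n ∈ S.filter (fun n => b n = m), f n * (E * q ^ b n) := by
    symm
    apply sum_fiberwise_of_maps_to
    intro n hn
    rw [mem_range]
    have := le_sup (f := b) hn
    omega
  have h3 : ∀ m ∈ range (S.sup b + 1), ∑ n ∈ S.filter (fun n => b n = m), f n * (E * q ^ b n) ≤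
      M₁ * E * q ^ m := by
    intro m _
    have : ∑ n ∈ S.filter (fun n => b n = m), f n * (E * q ^ b n) =
        (∑ n ∈ S.filter (fun n => b n = m), f n) * (E * q ^ m) := by
      rw [sum_mul]
      apply sum_congr rfl
      intro n hn
      rw [(mem_filter.mp hn).2]
    rw [this]
    calc _ ≤ M₁ * (E * q ^ m) := mul_le_mul_of_nonneg_right (hm m) (by positivity)
      _ = _ := by ring
  have h4 : ∑ m ∈ range (S.sup b + 1), q ^ m ≤ 2 := by
    have h5 : ∑ m ∈ range (S.sup b + 1), q ^ m ≤ ∑ m ∈ range (S.sup b + 1), (1 / 2 : ℝ) ^ m :=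
      sum_le_sum (fun m _ => pow_le_pow_left₀ hq hq2 m)
    exact h5.trans (sum_geometric_two_le _)
  calc _ ≤ ∑ m ∈ range (S.sup b + 1), M₁ * E * q ^ m := h1.trans (h2.le.trans (sum_le_sum h3))
    _ = M₁ * E * ∑ m ∈ range (S.sup b + 1), q ^ m := by rw [mul_sum]
    _ ≤ M₁ * E * 2 := mul_le_mul_of_nonneg_left h4 (by positivity)
    _ = _ := by ring

/-- weight of a block -/
lemma wt_block (X h L y n m : ℝ) (hX : 0 < X) (hh : 0 < h) (hL : 0 < L) (hn : 0 < n)
    (hy : 0 < y) (hnX : n ≤ 4 * X) (hyX : y ≤ 4 * X) (hm : 0 ≤ m)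
    (hd : (m + 1 / 2) * h ≤ |n - y|) :
    wt (h / (L * X)) y n ≤ Real.exp (-L ^ 2 / 128) * Real.exp (-L ^ 2 / 64 * m) := by
  have h1 := wt_near (h / (L * X)) y n (4 * X) ((m + 1 / 2) * h) (by positivity) hn hy hnX hyX
    (by positivity) hd
  refine h1.trans ?_
  rw [← Real.exp_add]
  apply Real.exp_le_exp.mpr
  have h2 : -((m + 1 / 2) * h / (4 * X)) ^ 2 / (2 * (h / (L * X)) ^ 2) =
      -((m + 1 / 2) ^ 2 * L ^ 2 / 32) := by
    field_simp; ring
  rw [h2]
  have : 0 ≤ m * L ^ 2 := by positivity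
  have : 0 ≤ m ^ 2 * L ^ 2 := by positivity
  nlinarith

end Pool.Agent.W815.CL
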